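import Pool.Agent.H82.EUC.Stmts

/-!
Row OPP of the board euc: opposite interests.
-/

namespace Pool.EUC

theorem opp_thm : OPP_S := by
  intro A dM dW hM hW σ τ hσ hτ hle m
  by_contra h
  rw [not_le] at h
  have h1 := hle (τ m)
  rw [Equiv.symm_apply_apply] at h1
  rcases h1.lt_or_eq with h2 | h2
  · exact hσ m (τ m) ⟨h, h2⟩
  · have h3 : m = σ.symm (τ m) := hW (τ m) h2
    have h4 : σ m = τ m := by
      conv_lhs => rw [h3]
      exact Equiv.apply_symm_apply σ (τ m)
    rw [h4] at h
    exact lt_irrefl _ h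

end Pool.EUC
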